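import Mathlib

/-!
# An internal-variable-free normal logic program without L-stable models

The program has the constant `0`, the unary function symbol `s`, the unary predicates
`stop, go, st, p, q` and the rules

* `stop(X) ← ∼go(X)`, `go(X) ← ∼stop(X)`,
* `st(X) ← stop(X)`, `st(s(X)) ← st(X)`,
* `p(X) ← stop(X)`, `p(X) ← go(X), p(s(X))`,
* `q(X) ← st(X), ∼q(X)`, `q(X) ← ∼q(X), ∼p(0)`.

If `stop` first holds at `n`, exactly the atoms `q(m)` with `m ≥ n` are undefined. If `p(0)` is not
true, all atoms `q(m)` are undefined. So every stable partial model can be improved by stopping later.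
-/

set_option autoImplicit false



namespace Pool.Agent.Results.MP_718be6_lc.NoLStable

/-- An atom with variables in `α`: a predicate symbol applied to terms. -/
def Atom (L : FirstOrder.Language.{0, 0}) (α : Type) : Type := Σ n, L.Relations n × (Fin n → L.Term α)

/-- A rule `head ← p₁, …, pₘ, ∼pₘ₊₁, …, ∼pₖ` with `pos = [p₁, …, pₘ]`, `neg = [pₘ₊₁, …, pₖ]`. -/
structure Rule (L : FirstOrder.Language.{0, 0}) (α : Type) where
  head : Atom L α
  pos : List (Atom L α)
  neg : List (Atom L α)

variable {L : FirstOrder.Language.{0, 0}}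

/-- The variables of an atom. -/
def Atom.vars (a : Atom L ℕ) : Set ℕ := {x | ∃ i, x ∈ (a.2.2 i).varFinset}

/-- The ground atom obtained by a substitution of ground terms for the variables. -/
def Atom.ground (σ : ℕ → L.Term Empty) (a : Atom L ℕ) : Atom L Empty :=
  ⟨a.1, a.2.1, fun i => (a.2.2 i).subst σ⟩

/-- The ground instance of a rule. -/
def Rule.ground (σ : ℕ → L.Term Empty) (r : Rule L ℕ) : Rule L Empty :=
  ⟨r.head.ground σ, r.pos.map (Atom.ground σ), r.neg.map (Atom.ground σ)⟩

/-- All ground instances of the rules of a program. -/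
def gr (P : Set (Rule L ℕ)) : Set (Rule L Empty) := {r | ∃ r₀ ∈ P, ∃ σ, r = r₀.ground σ}

/-- Every variable occurring in the body of a rule also occurs in its head. -/
def InternalVariableFree (P : Set (Rule L ℕ)) : Prop :=
  ∀ r ∈ P, ∀ a ∈ r.pos ++ r.neg, a.vars ⊆ r.head.vars

/-- The function symbol `f` occurs in the term. -/
def OccursInTerm {n : ℕ} (f : L.Functions n) : L.Term ℕ → Prop
  | .var _ => False
  | @FirstOrder.Language.Term.func _ _ m g ts =>
    (⟨m, g⟩ : Σ k, L.Functions k) = ⟨n, f⟩ ∨ ∃ i, OccursInTerm f (ts i)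

/-- Every function symbol and every predicate symbol of the language occurs in a rule of the program,
so that the Herbrand base `HB(P)` consists of all ground atoms of the language. -/
def UsesAllSymbols (P : Set (Rule L ℕ)) : Prop :=
  (∀ (n : ℕ) (f : L.Functions n), ∃ r ∈ P, ∃ a ∈ r.head :: (r.pos ++ r.neg), ∃ i,
    OccursInTerm f (a.2.2 i)) ∧
  ∀ (n : ℕ) (R : L.Relations n), ∃ r ∈ P, ∃ a ∈ r.head :: (r.pos ++ r.neg),
    (⟨a.1, a.2.1⟩ : Σ k, L.Relations k) = ⟨n, R⟩

open Classical in
/-- `J` is a three-valued model of the reduct `P^I`. The truth values `0 < u < 1` are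
`0 < 1 < 2 : Fin 3`. The rules with a literal `∼b` with `I b = 1` (value `2`) are deleted, the
literals `∼b` with `I b = 0` are deleted, the remaining literals `∼b` are replaced by an atom with the
value `u`; an empty body has the value `1`. -/
def IsModelOfReduct (P : Set (Rule L ℕ)) (I J : Atom L Empty → Fin 3) : Prop :=
  ∀ r ∈ gr P, (∀ b ∈ r.neg, I b ≠ 2) →
    (r.pos.map J).foldr min (if ∃ b ∈ r.neg, I b = 1 then 1 else 2) ≤ J r.head

/-- Stable partial models: the least three-valued model of `P^I` is `I`. -/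
def IsStablePartialModel (P : Set (Rule L ℕ)) (I : Atom L Empty → Fin 3) : Prop :=
  IsLeast {J | IsModelOfReduct P I J} I

/-- The set `I^u` of the undefined atoms. -/
def undefinedAtoms (I : Atom L Empty → Fin 3) : Set (Atom L Empty) := {a | I a = 1}

/-- L-stable models. -/
def IsLStable (P : Set (Rule L ℕ)) (I : Atom L Empty → Fin 3) : Prop :=
  IsStablePartialModel P I ∧
    ¬ ∃ J, IsStablePartialModel P J ∧ undefinedAtoms J ⊂ undefinedAtoms I

/-! ### The program -/

/-- the function symbols -/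
inductive Fn : ℕ → Type
  | zero : Fn 0
  | succ : Fn 1

/-- the predicate symbols -/
inductive Rl : ℕ → Type
  | stop : Rl 1
  | go : Rl 1
  | st : Rl 1
  | p : Rl 1
  | q : Rl 1

/-- the language of the program -/
def Lg : FirstOrder.Language.{0, 0} := ⟨Fn, Rl⟩

/-- the constant -/
def zeroT (α : Type) : Lg.Term α := .func (l := 0) (Fn.zero : Lg.Functions 0) ![]

/-- the successor -/
def succT {α : Type} (t : Lg.Term α) : Lg.Term α := .func (l := 1) (Fn.succ : Lg.Functions 1) ![t]

/-- the atom `R(t)` -/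
def at1 {α : Type} (R : Rl 1) (t : Lg.Term α) : Atom Lg α := ⟨1, (R : Lg.Relations 1), ![t]⟩

/-- the variable -/
def X : Lg.Term ℕ := .var 0

/-- the program -/
def Prog : Set (Rule Lg ℕ) :=
  {⟨at1 .stop X, [], [at1 .go X]⟩, ⟨at1 .go X, [], [at1 .stop X]⟩,
    ⟨at1 .st X, [at1 .stop X], []⟩, ⟨at1 .st (succT X), [at1 .st X], []⟩,
    ⟨at1 .p X, [at1 .stop X], []⟩, ⟨at1 .p X, [at1 .go X, at1 .p (succT X)], []⟩,
    ⟨at1 .q X, [at1 .st X], [at1 .q X]⟩, ⟨at1 .q X, [], [at1 .q X, at1 .p (zeroT ℕ)]⟩}

/-- the numerals -/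
def num : ℕ → Lg.Term Empty
  | 0 => zeroT Empty
  | n + 1 => succT (num n)

/-- the value of a ground term -/
def val : Lg.Term Empty → ℕ
  | .var e => e.elim
  | .func (l := 0) _ _ => 0
  | .func (l := _ + 1) _ ts => val (ts 0) + 1

theorem val_num (n : ℕ) : val (num n) = n := by
  induction n with
  | zero => rfl
  | succ n ih =>
    show val (num n) + 1 = n + 1
    rw [ih]

theorem exists_num (t : Lg.Term Empty) : ∃ n, t = num n := by
  induction t with
  | var e => exact e.elim
  | @func l f ts ih =>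
    cases f with
    | zero =>
      refine ⟨0, ?_⟩
      show _ = FirstOrder.Language.Term.func _ _
      congr
      exact Subsingleton.elim _ _
    | succ =>
      obtain ⟨n, hn⟩ := ih 0
      refine ⟨n + 1, ?_⟩
      show _ = FirstOrder.Language.Term.func _ _
      congr
      funext i
      rw [Subsingleton.elim i 0]
      exact hn

theorem at1_ground (R : Rl 1) (t : Lg.Term ℕ) (σ : ℕ → Lg.Term Empty) :
    Atom.ground σ (at1 R t) = at1 R (t.subst σ) := by
  unfold Atom.ground at1
  simp only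
  congr
  funext i
  rw [Subsingleton.elim i 0]
  rfl

theorem X_subst (σ : ℕ → Lg.Term Empty) : X.subst σ = σ 0 := rfl

theorem zeroT_subst (σ : ℕ → Lg.Term Empty) : (zeroT ℕ).subst σ = zeroT Empty := by
  unfold zeroT
  show FirstOrder.Language.Term.func _ _ = _
  congr
  exact Subsingleton.elim _ _

theorem succT_subst (t : Lg.Term ℕ) (σ : ℕ → Lg.Term Empty) :
    (succT t).subst σ = succT (t.subst σ) := by
  unfold succT
  show FirstOrder.Language.Term.func _ _ = _
  congr
  funext i
  rw [Subsingleton.elim i 0]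
  rfl

theorem model_iff_w {L : FirstOrder.Language.{0, 0}} (P : Set (Rule L ℕ))
    (I J : Atom L Empty → Fin 3) : IsModelOfReduct P I J ↔
    ∀ r ∈ gr P, (∀ b ∈ r.neg, I b ≠ 2) → ∀ w : Fin 3,
      ((∃ b ∈ r.neg, I b = 1) ∧ w = 1 ∨ (¬ ∃ b ∈ r.neg, I b = 1) ∧ w = 2) →
        (r.pos.map J).foldr min w ≤ J r.head := by
  unfold IsModelOfReduct
  refine forall₃_congr fun r _ _ => ?_
  by_cases h : ∃ b ∈ r.neg, I b = 1
  · rw [if_pos h]
    exact ⟨fun h1 w hw => by
      rcases hw with ⟨_, rfl⟩ | ⟨h2, _⟩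
      · exact h1
      · exact absurd h h2, fun h1 => h1 1 (Or.inl ⟨h, rfl⟩)⟩
  · rw [if_neg h]
    exact ⟨fun h1 w hw => by
      rcases hw with ⟨h2, _⟩ | ⟨_, rfl⟩
      · exact absurd h2 h
      · exact h1, fun h1 => h1 2 (Or.inr ⟨h, rfl⟩)⟩

/-- the reduct, written out -/
theorem model_iff (I J : Atom Lg Empty → Fin 3) : IsModelOfReduct Prog I J ↔
    ∀ k, (I (at1 .go (num k)) ≠ 2 → ∀ w : Fin 3, (I (at1 .go (num k)) = 1 ∧ w = 1 ∨
        ¬ I (at1 .go (num k)) = 1 ∧ w = 2) → w ≤ J (at1 .stop (num k))) ∧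
      (I (at1 .stop (num k)) ≠ 2 → ∀ w : Fin 3, (I (at1 .stop (num k)) = 1 ∧ w = 1 ∨
        ¬ I (at1 .stop (num k)) = 1 ∧ w = 2) → w ≤ J (at1 .go (num k))) ∧
      J (at1 .stop (num k)) ≤ J (at1 .st (num k)) ∧
      J (at1 .st (num k)) ≤ J (at1 .st (num (k + 1))) ∧
      J (at1 .stop (num k)) ≤ J (at1 .p (num k)) ∧
      min (J (at1 .go (num k))) (J (at1 .p (num (k + 1)))) ≤ J (at1 .p (num k)) ∧
      (I (at1 .q (num k)) ≠ 2 → ∀ w : Fin 3, (I (at1 .q (num k)) = 1 ∧ w = 1 ∨
        ¬ I (at1 .q (num k)) = 1 ∧ w = 2) → min (J (at1 .st (num k))) w ≤ J (at1 .q (num k))) ∧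
      (I (at1 .q (num k)) ≠ 2 ∧ I (at1 .p (num 0)) ≠ 2 → ∀ w : Fin 3,
        ((I (at1 .q (num k)) = 1 ∨ I (at1 .p (num 0)) = 1) ∧ w = 1 ∨
          ¬ (I (at1 .q (num k)) = 1 ∨ I (at1 .p (num 0)) = 1) ∧ w = 2) →
            w ≤ J (at1 .q (num k))) := by
  have htop : ∀ x : Fin 3, min x 2 = x := by decide
  have hor : ∀ x y : Fin 3, (x ≤ y ∨ 2 ≤ y) ↔ x ≤ y := by decide
  have hor3 : ∀ x y z : Fin 3, (x ≤ z ∨ y ≤ z ∨ 2 ≤ z) ↔ (x ≤ z ∨ y ≤ z) := by decide
  rw [model_iff_w]
  constructor
  · intro h k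
    have hgr : ∀ r₀ ∈ Prog, r₀.ground (fun _ => num k) ∈ gr Prog := fun r₀ h₀ => ⟨r₀, h₀, _, rfl⟩
    refine ⟨?_, ?_, ?_, ?_, ?_, ?_, ?_, ?_⟩
    · have := h _ (hgr ⟨at1 .stop X, [], [at1 .go X]⟩ (by simp [Prog]))
      simpa [hor, hor3, Rule.ground, at1_ground, X_subst] using this
    · have := h _ (hgr ⟨at1 .go X, [], [at1 .stop X]⟩ (by simp [Prog]))
      simpa [hor, hor3, Rule.ground, at1_ground, X_subst] using this
    · have := h _ (hgr ⟨at1 .st X, [at1 .stop X], []⟩ (by simp [Prog]))
      simpa [hor, hor3, Rule.ground, at1_ground, X_subst, htop] using this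
    · have := h _ (hgr ⟨at1 .st (succT X), [at1 .st X], []⟩ (by simp [Prog]))
      simpa [hor, hor3, Rule.ground, at1_ground, X_subst, htop, succT_subst, num] using this
    · have := h _ (hgr ⟨at1 .p X, [at1 .stop X], []⟩ (by simp [Prog]))
      simpa [hor, hor3, Rule.ground, at1_ground, X_subst, htop] using this
    · have := h _ (hgr ⟨at1 .p X, [at1 .go X, at1 .p (succT X)], []⟩ (by simp [Prog]))
      simpa [hor, hor3, Rule.ground, at1_ground, X_subst, htop, succT_subst, num] using this
    · have := h _ (hgr ⟨at1 .q X, [at1 .st X], [at1 .q X]⟩ (by simp [Prog]))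
      simpa [hor, hor3, Rule.ground, at1_ground, X_subst] using this
    · have := h _ (hgr ⟨at1 .q X, [], [at1 .q X, at1 .p (zeroT ℕ)]⟩ (by simp [Prog]))
      simpa [hor, hor3, Rule.ground, at1_ground, X_subst, zeroT_subst, num] using this
  · rintro h r ⟨r₀, h₀, σ, rfl⟩
    obtain ⟨k, hk⟩ := exists_num (σ 0)
    obtain ⟨h1, h2, h3, h4, h5, h6, h7, h8⟩ := h k
    simp only [Prog, Set.mem_insert_iff, Set.mem_singleton_iff] at h₀
    rcases h₀ with rfl | rfl | rfl | rfl | rfl | rfl | rfl | rfl
    · simpa [hor, hor3, Rule.ground, at1_ground, X_subst, hk] using h1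
    · simpa [hor, hor3, Rule.ground, at1_ground, X_subst, hk] using h2
    · simpa [hor, hor3, Rule.ground, at1_ground, X_subst, hk, htop] using h3
    · simpa [hor, hor3, Rule.ground, at1_ground, X_subst, hk, htop, succT_subst, num] using h4
    · simpa [hor, hor3, Rule.ground, at1_ground, X_subst, hk, htop] using h5
    · simpa [hor, hor3, Rule.ground, at1_ground, X_subst, hk, htop, succT_subst, num] using h6
    · simpa [hor, hor3, Rule.ground, at1_ground, X_subst, hk] using h7
    · simpa [hor, hor3, Rule.ground, at1_ground, X_subst, hk, zeroT_subst, num] using h8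

theorem at1_rel {R R' : Rl 1} {t t' : Lg.Term Empty} (h : at1 R t = at1 R' t') : R = R' := by
  unfold at1 at h
  have h1 := eq_of_heq (Sigma.mk.inj h).2
  exact (Prod.mk.inj h1).1

theorem at1_term {R R' : Rl 1} {t t' : Lg.Term Empty} (h : at1 R t = at1 R' t') : t = t' := by
  unfold at1 at h
  have h1 := eq_of_heq (Sigma.mk.inj h).2
  exact congrFun (Prod.mk.inj h1).2 0

/-- every ground atom -/
theorem exists_at1 (a : Atom Lg Empty) : ∃ (R : Rl 1) (k : ℕ), a = at1 R (num k) := by
  obtain ⟨n, R, ts⟩ := a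
  have hn : n = 1 := by cases R <;> rfl
  subst hn
  obtain ⟨k, hk⟩ := exists_num (ts 0)
  refine ⟨R, k, ?_⟩
  unfold at1
  congr
  funext i
  rw [Subsingleton.elim i 0]
  exact hk

section Facts

variable {I : Atom Lg Empty → Fin 3}

theorem q_ne_two (hI : IsStablePartialModel Prog I) (k : ℕ) : I (at1 .q (num k)) ≠ 2 := by
  classical
  intro hk
  have hmod := (model_iff I I).mp hI.1
  let J : Atom Lg Empty → Fin 3 := fun a => if a = at1 .q (num k) then 0 else I a
  have hJ : ∀ R : Rl 1, R ≠ .q → ∀ t, J (at1 R t) = I (at1 R t) := by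
    intro R hR t
    have : at1 R t ≠ at1 .q (num k) := fun h => hR (at1_rel h)
    simp only [J, if_neg this]
  have hJmod : IsModelOfReduct Prog I J := by
    rw [model_iff]
    intro m
    obtain ⟨h1, h2, h3, h4, h5, h6, h7, h8⟩ := hmod m
    rw [hJ .stop (by simp), hJ .go (by simp), hJ .st (by simp), hJ .st (by simp), hJ .p (by simp),
      hJ .p (by simp)]
    refine ⟨h1, h2, h3, h4, h5, h6, ?_, ?_⟩
    · intro hq w hw
      have hne : at1 .q (num m) ≠ at1 .q (num k) := fun h => hq (by rw [h]; exact hk)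
      have : J (at1 .q (num m)) = I (at1 .q (num m)) := by simp only [J, if_neg hne]
      rw [this]
      exact h7 hq w hw
    · intro hq w hw
      have hne : at1 .q (num m) ≠ at1 .q (num k) := fun h => hq.1 (by rw [h]; exact hk)
      have : J (at1 .q (num m)) = I (at1 .q (num m)) := by simp only [J, if_neg hne]
      rw [this]
      exact h8 hq w hw
  have h := hI.2 hJmod (at1 .q (num k))
  have h0 : J (at1 .q (num k)) = 0 := by simp only [J, if_true]
  rw [hk, h0] at h
  have h' : (2 : Fin 3) ≤ 0 := h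
  exact absurd h' (by decide)

theorem exists_stop (hI : IsStablePartialModel Prog I) (h0 : I (at1 .p (num 0)) = 2) :
    ∃ m, I (at1 .stop (num m)) = 2 := by
  classical
  by_contra hcon
  push Not at hcon
  have hmod := (model_iff I I).mp hI.1
  let J : Atom Lg Empty → Fin 3 := fun a => if ∃ t, a = at1 .p t then min (I a) 1 else I a
  have hJ : ∀ R : Rl 1, R ≠ .p → ∀ t, J (at1 R t) = I (at1 R t) := by
    intro R hR t
    have : ¬ ∃ t', at1 R t = at1 .p t' := fun ⟨t', h⟩ => hR (at1_rel h)
    simp only [J, if_neg this]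
  have hJp : ∀ t, J (at1 .p t) = min (I (at1 .p t)) 1 := by
    intro t
    simp only [J, if_pos (⟨t, rfl⟩ : ∃ t', at1 .p t = at1 .p t')]
  have hJmod : IsModelOfReduct Prog I J := by
    rw [model_iff]
    intro m
    obtain ⟨h1, h2, h3, h4, h5, h6, h7, h8⟩ := hmod m
    rw [hJ .stop (by simp), hJ .go (by simp), hJ .st (by simp), hJ .st (by simp), hJp, hJp,
      hJ .q (by simp)]
    refine ⟨h1, h2, h3, h4, ?_, ?_, h7, h8⟩
    · have key : ∀ x y : Fin 3, x ≠ 2 → x ≤ y → x ≤ min y 1 := by decide
      exact key _ _ (hcon m) h5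
    · have key : ∀ x y z : Fin 3, min x y ≤ z → min x (min y 1) ≤ min z 1 := by decide
      exact key _ _ _ h6
  have h := hI.2 hJmod (at1 .p (num 0))
  rw [h0, hJp, h0] at h
  exact absurd h (by decide)

theorem st_of_stop (hI : IsStablePartialModel Prog I) (m : ℕ) (hm : I (at1 .stop (num m)) = 2)
    (k : ℕ) (hk : m ≤ k) : I (at1 .st (num k)) = 2 := by
  have hmod := (model_iff I I).mp hI.1
  have key : ∀ x : Fin 3, 2 ≤ x → x = 2 := by decide
  induction k, hk using Nat.le_induction with
  | base =>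
    have := (hmod m).2.2.1
    rw [hm] at this
    exact key _ this
  | succ k _ ih =>
    have := (hmod k).2.2.2.1
    rw [ih] at this
    exact key _ this

theorem q_of_st (hI : IsStablePartialModel Prog I) (k : ℕ) (hk : I (at1 .st (num k)) = 2) :
    I (at1 .q (num k)) = 1 := by
  have hmod := (model_iff I I).mp hI.1
  have h7 := (hmod k).2.2.2.2.2.2.1 (q_ne_two hI k)
  rw [hk] at h7
  have h2 := q_ne_two hI k
  revert h7 h2
  generalize I (at1 .q (num k)) = x
  revert x
  decide

theorem q_of_p (hI : IsStablePartialModel Prog I) (h0 : I (at1 .p (num 0)) ≠ 2) (k : ℕ) :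
    I (at1 .q (num k)) = 1 := by
  have hmod := (model_iff I I).mp hI.1
  have h8 := (hmod k).2.2.2.2.2.2.2 ⟨q_ne_two hI k, h0⟩
  have h2 := q_ne_two hI k
  revert h8 h2
  generalize I (at1 .q (num k)) = x
  generalize I (at1 .p (num 0)) = y at h0
  revert x y
  decide

end Facts

/-- the model that stops at `n` -/
def In (n : ℕ) : Atom Lg Empty → Fin 3
  | ⟨_, Rl.stop, ts⟩ => if n ≤ val (ts 0) then 2 else 0
  | ⟨_, Rl.go, ts⟩ => if n ≤ val (ts 0) then 0 else 2
  | ⟨_, Rl.st, ts⟩ => if n ≤ val (ts 0) then 2 else 0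
  | ⟨_, Rl.p, _⟩ => 2
  | ⟨_, Rl.q, ts⟩ => if n ≤ val (ts 0) then 1 else 0

theorem In_stop (n k : ℕ) : In n (at1 .stop (num k)) = if n ≤ k then 2 else 0 := by
  show (if n ≤ val (num k) then (2 : Fin 3) else 0) = _
  rw [val_num]

theorem In_go (n k : ℕ) : In n (at1 .go (num k)) = if n ≤ k then 0 else 2 := by
  show (if n ≤ val (num k) then (0 : Fin 3) else 2) = _
  rw [val_num]

theorem In_st (n k : ℕ) : In n (at1 .st (num k)) = if n ≤ k then 2 else 0 := by
  show (if n ≤ val (num k) then (2 : Fin 3) else 0) = _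
  rw [val_num]

theorem In_p (n k : ℕ) : In n (at1 .p (num k)) = 2 := rfl

theorem In_q (n k : ℕ) : In n (at1 .q (num k)) = if n ≤ k then 1 else 0 := by
  show (if n ≤ val (num k) then (1 : Fin 3) else 0) = _
  rw [val_num]

theorem In_stable (n : ℕ) : IsStablePartialModel Prog (In n) := by
  constructor
  · show IsModelOfReduct Prog (In n) (In n)
    rw [model_iff]
    intro k
    rw [In_stop, In_go, In_st, In_st, In_p, In_p, In_q, In_p]
    by_cases h : n ≤ k
    · have h' : n ≤ k + 1 := by omega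
      simp only [h, h', if_true]
      exact ⟨by decide, by decide, by decide, by decide, by decide, by decide, by decide,
        by decide⟩
    · by_cases h' : n ≤ k + 1
      · simp only [h, h', if_true, if_false]
        exact ⟨by decide, by decide, by decide, by decide, by decide, by decide, by decide,
          by decide⟩
      · simp only [h, h', if_false]
        exact ⟨by decide, by decide, by decide, by decide, by decide, by decide, by decide,
          by decide⟩
  · intro K hK
    have hK' := (model_iff (In n) K).mp hK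
    have hstop : ∀ k, n ≤ k → 2 ≤ K (at1 .stop (num k)) := by
      intro k hk
      have h1 := (hK' k).1
      rw [In_go, if_pos hk] at h1
      exact h1 (by decide) 2 (by decide)
    have hgo : ∀ k, ¬ n ≤ k → 2 ≤ K (at1 .go (num k)) := by
      intro k hk
      have h1 := (hK' k).2.1
      rw [In_stop, if_neg hk] at h1
      exact h1 (by decide) 2 (by decide)
    have hst : ∀ k, n ≤ k → 2 ≤ K (at1 .st (num k)) := fun k hk =>
      (hstop k hk).trans (hK' k).2.2.1
    have hp : ∀ j k, n ≤ k + j → 2 ≤ K (at1 .p (num k)) := by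
      intro j
      induction j with
      | zero => exact fun k hk => (hstop k (by simpa using hk)).trans (hK' k).2.2.2.2.1
      | succ j ih =>
        intro k hk
        by_cases h : n ≤ k
        · exact (hstop k h).trans (hK' k).2.2.2.2.1
        · exact (le_min (hgo k h) (ih (k + 1) (by omega))).trans (hK' k).2.2.2.2.2.1
    have hq : ∀ k, n ≤ k → 1 ≤ K (at1 .q (num k)) := by
      intro k hk
      have h7 := (hK' k).2.2.2.2.2.2.1
      rw [In_q, if_pos hk] at h7
      have h8 := h7 (by decide) 1 (by decide)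
      have key : ∀ x y : Fin 3, 2 ≤ x → min x 1 ≤ y → 1 ≤ y := by decide
      exact key _ _ (hst k hk) h8
    intro a
    obtain ⟨R, k, rfl⟩ := exists_at1 a
    cases R
    · rw [In_stop]
      split_ifs with h
      · exact hstop k h
      · exact Fin.zero_le _
    · rw [In_go]
      split_ifs with h
      · exact Fin.zero_le _
      · exact hgo k h
    · rw [In_st]
      split_ifs with h
      · exact hst k h
      · exact Fin.zero_le _
    · rw [In_p]
      exact hp n k (by omega)
    · rw [In_q]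
      split_ifs with h
      · exact hq k h
      · exact Fin.zero_le _

theorem mem_undefined {n : ℕ} {a : Atom Lg Empty} (ha : a ∈ undefinedAtoms (In n)) :
    ∃ k, n ≤ k ∧ a = at1 .q (num k) := by
  obtain ⟨R, k, rfl⟩ := exists_at1 a
  have h : In n (at1 R (num k)) = 1 := ha
  cases R
  · rw [In_stop] at h
    split_ifs at h
    · exact absurd h (by decide)
    · exact absurd h (by decide)
  · rw [In_go] at h
    split_ifs at h
    · exact absurd h (by decide)
    · exact absurd h (by decide)
  · rw [In_st] at h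
    split_ifs at h
    · exact absurd h (by decide)
    · exact absurd h (by decide)
  · rw [In_p] at h
    exact absurd h (by decide)
  · rw [In_q] at h
    split_ifs at h with h'
    · exact ⟨k, h', rfl⟩
    · exact absurd h (by decide)

theorem improve {I : Atom Lg Empty → Fin 3} (m : ℕ)
    (h : ∀ k, m ≤ k → I (at1 .q (num k)) = 1) :
    undefinedAtoms (In (m + 1)) ⊂ undefinedAtoms I := by
  refine ⟨?_, ?_⟩
  · intro a ha
    obtain ⟨k, hk, rfl⟩ := mem_undefined ha
    exact h k (by omega)
  · intro hsub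
    have h1 : In (m + 1) (at1 .q (num m)) = 1 := hsub (h m le_rfl)
    rw [In_q, if_neg (by omega)] at h1
    exact absurd h1 (by decide)

theorem no_LStable : ¬ ∃ I, IsLStable Prog I := by
  rintro ⟨I, hI, hmin⟩
  apply hmin
  by_cases h0 : I (at1 .p (num 0)) = 2
  · obtain ⟨m, hm⟩ := exists_stop hI h0
    exact ⟨In (m + 1), In_stable _, improve m fun k hk => q_of_st hI k (st_of_stop hI m hm k hk)⟩
  · exact ⟨In 1, In_stable _, improve 0 fun k _ => q_of_p hI h0 k⟩

/-- There are a language with finitely many symbols and a finite internal-variable-free normal logic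
program which uses all symbols of the language and has no L-stable model. -/
theorem result : ∃ (L : FirstOrder.Language.{0, 0}) (P : Set (Rule L ℕ)),
    Finite (Σ n, L.Functions n) ∧ Finite (Σ n, L.Relations n) ∧ P.Finite ∧ UsesAllSymbols P ∧
      InternalVariableFree P ∧ ¬ ∃ I, IsLStable P I := by
  refine ⟨Lg, Prog, ?_, ?_, ?_, ⟨?_, ?_⟩, ?_, no_LStable⟩
  · refine Finite.of_surjective (fun b : Bool => if b then (⟨0, Fn.zero⟩ : Σ n, Lg.Functions n)
      else ⟨1, Fn.succ⟩) ?_
    rintro ⟨n, f⟩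
    cases f
    · exact ⟨true, rfl⟩
    · exact ⟨false, rfl⟩
  · refine Finite.of_surjective (fun b : Fin 5 => (⟨1, (![Rl.stop, Rl.go, Rl.st, Rl.p, Rl.q] b :
      Rl 1)⟩ : Σ n, Lg.Relations n)) ?_
    rintro ⟨n, f⟩
    cases f
    · exact ⟨0, rfl⟩
    · exact ⟨1, rfl⟩
    · exact ⟨2, rfl⟩
    · exact ⟨3, rfl⟩
    · exact ⟨4, rfl⟩
  · unfold Prog
    exact Set.toFinite _
  · intro n f
    cases f
    · refine ⟨⟨at1 .q X, [], [at1 .q X, at1 .p (zeroT ℕ)]⟩, by simp [Prog], at1 .p (zeroT ℕ),
        by simp, (0 : Fin 1), Or.inl rfl⟩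
    · refine ⟨⟨at1 .st (succT X), [at1 .st X], []⟩, by simp [Prog], at1 .st (succT X),
        by simp, (0 : Fin 1), Or.inl rfl⟩
  · intro n f
    cases f
    · exact ⟨⟨at1 .stop X, [], [at1 .go X]⟩, by simp [Prog], at1 .stop X, by simp, rfl⟩
    · exact ⟨⟨at1 .go X, [], [at1 .stop X]⟩, by simp [Prog], at1 .go X, by simp, rfl⟩
    · exact ⟨⟨at1 .st X, [at1 .stop X], []⟩, by simp [Prog], at1 .st X, by simp, rfl⟩
    · exact ⟨⟨at1 .p X, [at1 .stop X], []⟩, by simp [Prog], at1 .p X, by simp, rfl⟩
    · exact ⟨⟨at1 .q X, [at1 .st X], [at1 .q X]⟩, by simp [Prog], at1 .q X, by simp, rfl⟩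
  · have hX : ∀ R : Rl 1, (at1 R X).vars = {0} := by
      intro R
      ext x
      unfold Atom.vars at1 X
      simp [FirstOrder.Language.Term.varFinset]
    have hsX : ∀ R : Rl 1, (at1 R (succT X)).vars = {0} := by
      intro R
      ext x
      unfold Atom.vars at1 X succT
      simp [FirstOrder.Language.Term.varFinset]
    have h0 : ∀ R : Rl 1, (at1 R (zeroT ℕ)).vars = ∅ := by
      intro R
      ext x
      unfold Atom.vars at1 zeroT
      simp [FirstOrder.Language.Term.varFinset]
    intro r hr a ha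
    simp only [Prog, Set.mem_insert_iff, Set.mem_singleton_iff] at hr
    rcases hr with rfl | rfl | rfl | rfl | rfl | rfl | rfl | rfl
    all_goals
      simp only [List.nil_append, List.cons_append, List.mem_cons, List.not_mem_nil, or_false]
        at ha
    · rw [ha, hX, hX]
    · rw [ha, hX, hX]
    · rw [ha, hX, hX]
    · rw [ha, hX, hsX]
    · rw [ha, hX, hX]
    · rcases ha with rfl | rfl
      · rw [hX, hX]
      · rw [hsX, hX]
    · rcases ha with rfl | rfl
      · rw [hX, hX]
      · rw [hX]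
    · rcases ha with rfl | rfl
      · rw [hX]
      · rw [h0]
        exact Set.empty_subset _

end Pool.Agent.Results.MP_718be6_lc.NoLStable
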